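import Pool.Agent.H29.Fano.Low

/-!
Separably rationally connected Fano hypersurfaces over prime fields.
-/

open MvPolynomial Pool.Agent.H29.Fano

namespace Pool.Agent.Results.MP_fe9afc_ag.EveryPrimeEveryDegree

section

variable {p : ℕ} [Fact p.Prime] {K : Type*} [Field K] [Algebra (ZMod p) K]

/-- Degree `d` at least three, prime to `p`. -/
theorem coprime_case {d : ℕ} (hd : 3 ≤ d) (hpd : ¬ p ∣ d) (m : ℕ) :
    ∃ F : MvPolynomial (Fin (d + m + 1)) (ZMod p), F.IsHomogeneous d ∧ IsSmooth K F ∧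
      IsSRC K F := by
  induction m with
  | zero =>
    by_cases hp : p = 2
    · subst hp
      obtain ⟨F, h1, h2, h3, h4⟩ := caseB (K := K) hd hpd
      exact ⟨F, h1, h2, _, _, h3, h4⟩
    · obtain ⟨F, h1, h2, h3, h4⟩ := caseA (K := K) (show 2 ≤ d by omega) hp hpd
      exact ⟨F, h1, h2, _, _, h3, h4⟩
  | succ m ih =>
    obtain ⟨F, h1, h2, h3⟩ := ih
    have : CharP K p := charP_of_injective_algebraMap (algebraMap (ZMod p) K).injective p
    have hd0 : (d : K) ≠ 0 := fun h => hpd ((CharP.cast_eq_zero_iff K p d).mp h)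
    exact step_fermat (by omega) hd0 h1 h2 h3

/-- Degree `d` at least three, divisible by `p`. -/
theorem dvd_case {d : ℕ} (hd : 3 ≤ d) (hpd : p ∣ d) (m : ℕ) :
    ∃ F : MvPolynomial (Fin (d + m + 1)) (ZMod p), F.IsHomogeneous d ∧ IsSmooth K F ∧
      (∃ j, SmoothSection K F j) ∧ IsSRC K F := by
  induction m with
  | zero =>
    by_cases hp : p = 2
    · subst hp
      by_cases hd4 : d = 4
      · subst hd4
        obtain ⟨F, h1, h2, hj, h3, h4⟩ := caseS (K := K)
        exact ⟨F, h1, h2, hj, _, _, h3, h4⟩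
      · obtain ⟨F, h1, h2, hj, h3, h4⟩ := caseC_two (K := K) (show 6 ≤ d by omega) hpd
        exact ⟨F, h1, h2, hj, _, _, h3, h4⟩
    · obtain ⟨F, h1, h2, hj, h3, h4⟩ := caseC_odd (K := K) hd hp hpd
      exact ⟨F, h1, h2, hj, _, _, h3, h4⟩
  | succ m ih =>
    obtain ⟨F, h1, h2, hj, h3⟩ := ih
    have : CharP K p := charP_of_injective_algebraMap (algebraMap (ZMod p) K).injective p
    have hd0 : (d : K) = 0 := (CharP.cast_eq_zero_iff K p d).mpr hpd
    exact step_mixed hd hd0 h1 h2 hj h3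

end

/-- For every prime `p` and all integers `n ≥ 2` and `1 ≤ d ≤ n` there is a smooth hypersurface
of degree `d` in projective `n`-space, defined over the field with `p` elements, which is
separably rationally connected. -/
theorem result (p : ℕ) [Fact p.Prime] (n d : ℕ) (hn : 2 ≤ n) (hd : 1 ≤ d) (hdn : d ≤ n) :
    ∃ F : MvPolynomial (Fin (n + 1)) (ZMod p), F.IsHomogeneous d ∧
      IsSmooth (AlgebraicClosure (ZMod p)) F ∧ IsSRC (AlgebraicClosure (ZMod p)) F := by
  rcases Nat.lt_or_ge d 3 with h | h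
  · interval_cases d
    · exact degree_one hn
    · exact degree_two hn
  · obtain ⟨m, rfl⟩ : ∃ m, n = d + m := ⟨n - d, by omega⟩
    by_cases hpd : p ∣ d
    · obtain ⟨F, h1, h2, _, h3⟩ := dvd_case (K := AlgebraicClosure (ZMod p)) h hpd m
      exact ⟨F, h1, h2, h3⟩
    · exact coprime_case h hpd m

end Pool.Agent.Results.MP_fe9afc_ag.EveryPrimeEveryDegree
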